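import Mathlib.Data.Set.BooleanAlgebra
import Mathlib.Order.Fin.Basic
import Mathlib.Order.CompletePartialOrder

set_option autoImplicit false

namespace Pool.Agent.MP_80b08f_co

/-- A finite permutation: a size `n` and a bijection of `Fin n` (position to value). -/
abbrev Pm : Type := Σ n : ℕ, Equiv.Perm (Fin n)

/-- `f` is an embedding (an occurrence) of `α` in `β`: it preserves both linear orders. -/
def Emb (α β : Pm) (f : Fin α.1 → Fin β.1) : Prop :=
  StrictMono f ∧ ∀ i j, α.2 i < α.2 j ↔ β.2 (f i) < β.2 (f j)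

/-- A permutation class: a set of permutations closed under containment. -/
def IsClass (C : Set Pm) : Prop :=
  ∀ β ∈ C, ∀ (α : Pm) (f : Fin α.1 → Fin β.1), Emb α β f → α ∈ C

/-- `C` is `α`-amalgamable. -/
def Amalg (C : Set Pm) (α : Pm) : Prop :=
  ∀ β ∈ C, ∀ γ ∈ C, ∀ (f : Fin α.1 → Fin β.1) (g : Fin α.1 → Fin γ.1), Emb α β f → Emb α γ g →
    ∃ δ ∈ C, ∃ (f' : Fin β.1 → Fin δ.1) (g' : Fin γ.1 → Fin δ.1),
      Emb β δ f' ∧ Emb γ δ g' ∧ f' ∘ f = g' ∘ g

/-- `C` is 1-amalgamable. -/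
def OneAmalg (C : Set Pm) : Prop := ∀ α ∈ C, α.1 ≤ 1 → Amalg C α

/-- The merge of `A` and `B`: the entries split into a red set forming a pattern in `A` and a
blue set forming a pattern in `B`. -/
def Merge (A B : Set Pm) : Set Pm :=
  {π | ∃ α ∈ A, ∃ β ∈ B, ∃ (f : Fin α.1 → Fin π.1) (g : Fin β.1 → Fin π.1),
    Emb α π f ∧ Emb β π g ∧ IsCompl (Set.range f) (Set.range g)}

/-- `C` has a nontrivial splitting: `C` lies in the merge of finitely many classes
`A, B₁, …, Bₘ`, none of which contains `C`. -/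
def Splittable (C : Set Pm) : Prop :=
  ∃ (A : Set Pm) (L : List (Set Pm)),
    (∀ B ∈ A :: L, IsClass B ∧ ¬ C ⊆ B) ∧ C ⊆ L.foldl Merge A

end Pool.Agent.MP_80b08f_co
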