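import Mathlib.Data.Fin.VecNotation
import Mathlib.Data.ZMod.IntUnitsPower
import Mathlib.Data.Fintype.Sort
import Mathlib.Tactic.Monotonicity.Lemmas
import Mathlib.Data.Int.ConditionallyCompleteOrder
import Mathlib.Algebra.Order.Archimedean.Real.Basic
import Pool.Agent.MP_80b08f_co.Defs

-- ======== part 0: formerly Pool.Agent.MP_80b08f_co.Sys
section MrgPart0

set_option autoImplicit false
set_option linter.unusedVariables false
set_option linter.style.haveILetI false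

namespace Pool.Agent.MP_80b08f_co

/-- A set with two strict orders and a compatibility relation that forces comparability. -/
structure Sys where
  Y : Type
  l1 : Y → Y → Prop
  l2 : Y → Y → Prop
  R : Y → Y → Prop
  irr1 : ∀ a, ¬ l1 a a
  irr2 : ∀ a, ¬ l2 a a
  tr1 : ∀ a b c, l1 a b → l1 b c → l1 a c
  tr2 : ∀ a b c, l2 a b → l2 b c → l2 a c
  symm : ∀ a b, R a b → R b a
  tot1 : ∀ a b, R a b → l1 a b ∨ l1 b a
  tot2 : ∀ a b, R a b → l2 a b ∨ l2 b a

/-- `f` draws `π` in `S` by pairwise compatible points. -/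
structure Rep (S : Sys) (π : Pm) (f : Fin π.1 → S.Y) : Prop where
  r : ∀ i j, i ≠ j → S.R (f i) (f j)
  o1 : ∀ i j, i < j → S.l1 (f i) (f j)
  o2 : ∀ i j, π.2 i < π.2 j → S.l2 (f i) (f j)

/-- The permutations that can be drawn in `S`. -/
def Age (S : Sys) : Set Pm := {π | ∃ f, Rep S π f}

/-- Structure-preserving maps. -/
structure Hom (S T : Sys) (e : S.Y → T.Y) : Prop where
  r : ∀ a b, S.R a b → T.R (e a) (e b)
  o1 : ∀ a b, S.l1 a b → T.l1 (e a) (e b)
  o2 : ∀ a b, S.l2 a b → T.l2 (e a) (e b)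

variable {S T : Sys}

theorem Rep.lt1 {π : Pm} {f : Fin π.1 → S.Y} (h : Rep S π f) {i j : Fin π.1}
    (hl : S.l1 (f i) (f j)) : i < j := by
  rcases lt_trichotomy i j with h1 | rfl | h1
  · exact h1
  · exact absurd hl (S.irr1 _)
  · exact absurd (S.tr1 _ _ _ hl (h.o1 _ _ h1)) (S.irr1 _)

theorem Rep.lt2 {π : Pm} {f : Fin π.1 → S.Y} (h : Rep S π f) {i j : Fin π.1}
    (hl : S.l2 (f i) (f j)) : π.2 i < π.2 j := by
  rcases lt_trichotomy (π.2 i) (π.2 j) with h1 | h1 | h1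
  · exact h1
  · rw [π.2.injective h1] at hl
    exact absurd hl (S.irr2 _)
  · exact absurd (S.tr2 _ _ _ hl (h.o2 _ _ h1)) (S.irr2 _)

theorem Rep.inj {π : Pm} {f : Fin π.1 → S.Y} (h : Rep S π f) : Function.Injective f := by
  intro i j he
  rcases lt_trichotomy i j with h1 | h1 | h1
  · have := h.o1 _ _ h1
    rw [he] at this
    exact absurd this (S.irr1 _)
  · exact h1
  · have := h.o1 _ _ h1
    rw [he] at this
    exact absurd this (S.irr1 _)

theorem Rep.map {π : Pm} {f : Fin π.1 → S.Y} (h : Rep S π f) {e : S.Y → T.Y} (he : Hom S T e) :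
    Rep T π (e ∘ f) :=
  ⟨fun i j hij => he.r _ _ (h.r i j hij), fun i j hij => he.o1 _ _ (h.o1 i j hij),
    fun i j hij => he.o2 _ _ (h.o2 i j hij)⟩

theorem Rep.comp {π α : Pm} {f : Fin π.1 → S.Y} (h : Rep S π f) {g : Fin α.1 → Fin π.1}
    (hg : Emb α π g) : Rep S α (f ∘ g) :=
  ⟨fun i j hij => h.r _ _ (fun he => hij (hg.1.injective he)), fun _ _ hij => h.o1 _ _ (hg.1 hij),
    fun i j hij => h.o2 _ _ ((hg.2 i j).1 hij)⟩

theorem age_isClass (S : Sys) : IsClass (Age S) := by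
  rintro β ⟨f, hf⟩ α g hg
  exact ⟨_, hf.comp hg⟩

/-- Every finite set of pairwise compatible points draws a permutation. -/
theorem exists_rep (S : Sys) (F : Set S.Y) (hF : F.Finite)
    (hR : ∀ a ∈ F, ∀ b ∈ F, a ≠ b → S.R a b) :
    ∃ (δ : Pm) (g : Fin δ.1 → S.Y), Rep S δ g ∧ Set.range g = F := by
  classical
  haveI : Fintype F := hF.fintype
  let r1 : F → F → Prop := fun a b => S.l1 a.1 b.1
  let r2 : F → F → Prop := fun a b => S.l2 a.1 b.1
  haveI : IsStrictTotalOrder F r1 :=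
    { irrefl := fun a => S.irr1 _
      trans := fun a b c => S.tr1 _ _ _
      trichotomous := fun a b h1 h2 => by
        by_contra hne
        rcases S.tot1 _ _ (hR a.1 a.2 b.1 b.2 (fun h => hne (Subtype.ext h))) with h | h
        · exact h1 h
        · exact h2 h }
  haveI : IsStrictTotalOrder F r2 :=
    { irrefl := fun a => S.irr2 _
      trans := fun a b c => S.tr2 _ _ _
      trichotomous := fun a b h1 h2 => by
        by_contra hne
        rcases S.tot2 _ _ (hR a.1 a.2 b.1 b.2 (fun h => hne (Subtype.ext h))) with h | h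
        · exact h1 h
        · exact h2 h }
  obtain ⟨e1, he1⟩ : ∃ e : Fin (Fintype.card F) ≃ F, ∀ i j, i < j ↔ r1 (e i) (e j) := by
    letI := linearOrderOfSTO r1
    exact ⟨(monoEquivOfFin F rfl).toEquiv, fun i j => (monoEquivOfFin F rfl).lt_iff_lt.symm⟩
  obtain ⟨e2, he2⟩ : ∃ e : Fin (Fintype.card F) ≃ F, ∀ i j, i < j ↔ r2 (e i) (e j) := by
    letI := linearOrderOfSTO r2
    exact ⟨(monoEquivOfFin F rfl).toEquiv, fun i j => (monoEquivOfFin F rfl).lt_iff_lt.symm⟩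
  refine ⟨⟨Fintype.card F, e1.trans e2.symm⟩, fun i => (e1 i).1, ⟨?_, ?_, ?_⟩, ?_⟩
  · intro i j hij
    exact hR _ (e1 i).2 _ (e1 j).2 (fun h => hij (e1.injective (Subtype.ext h)))
  · intro i j hij
    exact (he1 i j).1 hij
  · intro i j hij
    have := (he2 _ _).1 hij
    simpa [r2] using this
  · ext y
    constructor
    · rintro ⟨i, rfl⟩
      exact (e1 i).2
    · intro hy
      exact ⟨e1.symm ⟨y, hy⟩, by simp⟩

theorem factor {δ β : Pm} {g : Fin δ.1 → S.Y} {f : Fin β.1 → S.Y} (hg : Rep S δ g)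
    (hf : Rep S β f) (hsub : Set.range f ⊆ Set.range g) :
    ∃ f' : Fin β.1 → Fin δ.1, Emb β δ f' ∧ ∀ i, g (f' i) = f i := by
  have : ∀ i, ∃ t, g t = f i := fun i => hsub ⟨i, rfl⟩
  choose f' hf' using this
  refine ⟨f', ⟨fun i j hij => hg.lt1 (by rw [hf', hf']; exact hf.o1 i j hij), fun i j => ?_⟩, hf'⟩
  constructor
  · intro hij
    exact hg.lt2 (by rw [hf', hf']; exact hf.o2 i j hij)
  · intro hij
    have := hg.o2 _ _ hij
    rw [hf', hf'] at this
    exact hf.lt2 this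

/-- Two points can be moved onto each other so that their neighbourhoods become compatible. -/
def Am (S : Sys) : Prop :=
  ∀ a b : S.Y, ∃ e1 e2 : S.Y → S.Y, Hom S S e1 ∧ Hom S S e2 ∧ e1 a = e2 b ∧
    ∀ y z, S.R a y → S.R b z → S.R (e1 y) (e2 z)

theorem amalg_point (hS : Am S) {β γ : Pm} (hβ : β ∈ Age S) (hγ : γ ∈ Age S) (i : Fin β.1)
    (j : Fin γ.1) : ∃ δ ∈ Age S, ∃ (f' : Fin β.1 → Fin δ.1) (g' : Fin γ.1 → Fin δ.1),
      Emb β δ f' ∧ Emb γ δ g' ∧ f' i = g' j := by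
  obtain ⟨f, hf⟩ := hβ
  obtain ⟨g, hg⟩ := hγ
  obtain ⟨e1, e2, h1, h2, he, hx⟩ := hS (f i) (g j)
  have hf' := hf.map h1
  have hg' := hg.map h2
  have cross : ∀ s t, e1 (f s) ≠ e2 (g t) → S.R (e1 (f s)) (e2 (g t)) := by
    intro s t hne
    by_cases hs : s = i
    · rw [hs, he] at hne ⊢
      exact hg'.r j t (fun h => hne (by rw [h]))
    · by_cases ht : t = j
      · rw [ht, ← he]
        exact hf'.r s i hs
      · exact hx _ _ (hf.r i s (Ne.symm hs)) (hg.r j t (Ne.symm ht))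
  obtain ⟨δ, u, hu, hr⟩ := exists_rep S (Set.range (e1 ∘ f) ∪ Set.range (e2 ∘ g))
    ((Set.finite_range _).union (Set.finite_range _)) (by
      rintro a (⟨s, rfl⟩ | ⟨s, rfl⟩) b (⟨t, rfl⟩ | ⟨t, rfl⟩) hne
      · exact hf'.r s t (fun h => hne (by rw [h]))
      · exact cross s t hne
      · exact S.symm _ _ (cross t s (Ne.symm hne))
      · exact hg'.r s t (fun h => hne (by rw [h])))
  obtain ⟨f', hf1, hf2⟩ := factor hu hf' (by rw [hr]; exact Set.subset_union_left)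
  obtain ⟨g', hg1, hg2⟩ := factor hu hg' (by rw [hr]; exact Set.subset_union_right)
  refine ⟨δ, ⟨u, hu⟩, f', g', hf1, hg1, hu.inj ?_⟩
  rw [hf2, hg2]
  exact he

theorem emb_id (β : Pm) : Emb β β id := ⟨strictMono_id, fun _ _ => Iff.rfl⟩

theorem oneAmalg_age (hS : Am S) : OneAmalg (Age S) := by
  intro α _ hα β hβ γ hγ f g hf hg
  by_cases h0 : α.1 = 0
  · have hE : IsEmpty (Fin α.1) := by rw [h0]; infer_instance
    by_cases hb : Nonempty (Fin β.1)
    · by_cases hc : Nonempty (Fin γ.1)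
      · obtain ⟨δ, hδ, f', g', h1, h2, -⟩ := amalg_point hS hβ hγ hb.some hc.some
        exact ⟨δ, hδ, f', g', h1, h2, funext fun i => hE.elim i⟩
      · rw [not_nonempty_iff] at hc
        exact ⟨β, hβ, id, fun i => hc.elim i, emb_id β,
          ⟨fun i => hc.elim i, fun i => hc.elim i⟩, funext fun i => hE.elim i⟩
    · rw [not_nonempty_iff] at hb
      exact ⟨γ, hγ, fun i => hb.elim i, id, ⟨fun i => hb.elim i, fun i => hb.elim i⟩, emb_id γ,
        funext fun i => hE.elim i⟩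
  · have i0 : Fin α.1 := ⟨0, by omega⟩
    obtain ⟨δ, hδ, f', g', h1, h2, h3⟩ := amalg_point hS hβ hγ (f i0) (g i0)
    refine ⟨δ, hδ, f', g', h1, h2, funext fun i => ?_⟩
    have : i = i0 := Fin.ext (by have := i.2; have := i0.2; omega)
    rw [this]
    exact h3

/-- The permutation 2413. -/
def p2413 : Pm := ⟨4, ⟨![1, 3, 0, 2], ![2, 0, 3, 1], by decide, by decide⟩⟩

/-- The class of permutations avoiding 2413. -/
def Av2413 : Set Pm := {π | ∀ f, ¬ Emb p2413 π f}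

theorem Emb.comp {α β γ : Pm} {f : Fin α.1 → Fin β.1} {g : Fin β.1 → Fin γ.1} (hf : Emb α β f)
    (hg : Emb β γ g) : Emb α γ (g ∘ f) :=
  ⟨hg.1.comp hf.1, fun i j => (hf.2 i j).trans (hg.2 _ _)⟩

theorem av_isClass : IsClass Av2413 := fun _ hβ _ _ hf _ hg => hβ _ (hg.comp hf)

/-- A two-colouring without monochromatic 2413. -/
def Col (S : Sys) : Prop :=
  ∃ χ : S.Y → Prop, ∀ f, Rep S p2413 f → ¬ (∀ i, χ (f i)) ∧ ¬ (∀ i, ¬ χ (f i))

theorem sub_rep {π : Pm} {f : Fin π.1 → S.Y} (hf : Rep S π f) (χ : S.Y → Prop) :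
    ∃ (α : Pm) (g : Fin α.1 → Fin π.1), Emb α π g ∧ Set.range g = {i | χ (f i)} := by
  obtain ⟨α, u, hu, hr⟩ := exists_rep S (f '' {i | χ (f i)}) (Set.toFinite _) (by
    rintro a ⟨s, -, rfl⟩ b ⟨t, -, rfl⟩ hne
    exact hf.r s t (fun h => hne (by rw [h])))
  obtain ⟨g, hg1, hg2⟩ := factor hf hu (by rw [hr]; exact Set.image_subset_range _ _)
  refine ⟨α, g, hg1, ?_⟩
  ext i
  constructor
  · rintro ⟨t, rfl⟩
    have : u t ∈ f '' {i | χ (f i)} := by rw [← hr]; exact ⟨t, rfl⟩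
    obtain ⟨s, hs, hs'⟩ := this
    show χ (f (g t))
    rw [hg2, ← hs']
    exact hs
  · intro hi
    have : f i ∈ Set.range u := by rw [hr]; exact ⟨i, hi, rfl⟩
    obtain ⟨t, ht⟩ := this
    exact ⟨t, hf.inj (by rw [hg2, ht])⟩

theorem splits_age (hc : Col S) (h4 : p2413 ∈ Age S) : Splittable (Age S) := by
  obtain ⟨χ, hχ⟩ := hc
  have hn : ¬ Age S ⊆ Av2413 := fun h => h h4 id (emb_id _)
  refine ⟨Av2413, [Av2413], fun B hB => ?_, ?_⟩
  · have : B = Av2413 := by simpa using hB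
    rw [this]
    exact ⟨av_isClass, hn⟩
  rintro π ⟨f, hf⟩
  obtain ⟨α, g, hg1, hg2⟩ := sub_rep hf χ
  obtain ⟨β, h, hh1, hh2⟩ := sub_rep hf (fun y => ¬ χ y)
  refine ⟨α, ?_, β, ?_, g, h, hg1, hh1, ?_⟩
  · intro e he
    refine (hχ _ (hf.comp (he.comp hg1))).1 fun i => ?_
    have : g (e i) ∈ Set.range g := ⟨_, rfl⟩
    rw [hg2] at this
    exact this
  · intro e he
    refine (hχ _ (hf.comp (he.comp hh1))).2 fun i => ?_
    have : h (e i) ∈ Set.range h := ⟨_, rfl⟩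
    rw [hh2] at this
    exact this
  · rw [hg2, hh2]
    exact isCompl_compl

end Pool.Agent.MP_80b08f_co

end MrgPart0

-- ======== part 1: formerly Pool.Agent.MP_80b08f_co.Chord
section MrgPart1

set_option autoImplicit false
set_option linter.unusedVariables false

namespace Pool.Agent.MP_80b08f_co

/-- Lifts to the line of oriented chords of the circle of length one. -/
def Chord : Type := {c : ℝ × ℝ // c.1 < c.2 ∧ c.2 < c.1 + 1}

/-- `t` lies modulo one in the open interval from `u` to `v`. -/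
def InArc (u v t : ℝ) : Prop := ∃ k : ℤ, u < t + k ∧ t + k < v

/-- Both ends of `b` lie strictly on the same side of `a`. -/
def Side (a b : Chord) : Prop :=
  (InArc a.1.1 a.1.2 b.1.1 ∧ InArc a.1.1 a.1.2 b.1.2) ∨
  (InArc a.1.2 (a.1.1 + 1) b.1.1 ∧ InArc a.1.2 (a.1.1 + 1) b.1.2)

theorem int_no {k : ℤ} (h1 : (0 : ℝ) < k) (h2 : (k : ℝ) < 1) : False := by
  have a : (0 : ℤ) < k := by exact_mod_cast h1
  have b : k < 1 := by exact_mod_cast h2
  omega

theorem Side.ne1 {a b : Chord} (h : Side a b) : a.1.1 ≠ b.1.1 := by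
  intro he
  have ha := a.2
  rcases h with ⟨⟨k, h1, h2⟩, -⟩ | ⟨⟨k, h1, h2⟩, -⟩
  · exact int_no (k := k) (by linarith) (by linarith)
  · exact int_no (k := k) (by linarith) (by linarith)

theorem Side.ne2 {a b : Chord} (h : Side a b) : a.1.2 ≠ b.1.2 := by
  intro he
  have ha := a.2
  rcases h with ⟨-, ⟨k, h1, h2⟩⟩ | ⟨-, ⟨k, h1, h2⟩⟩
  · exact int_no (k := -k) (by push_cast; linarith) (by push_cast; linarith)
  · exact int_no (k := k) (by linarith) (by linarith)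

theorem Side.nocross {a b : Chord} (h : Side a b) (h1 : a.1.1 < b.1.1) (h2 : b.1.1 < a.1.2)
    (h3 : a.1.2 < b.1.2) : a.1.1 + 1 < b.1.2 := by
  by_contra hc
  push Not at hc
  rcases h with ⟨-, ⟨k, k1, k2⟩⟩ | ⟨⟨k, k1, k2⟩, -⟩
  · exact int_no (k := -k) (by push_cast; linarith) (by push_cast; linarith)
  · exact int_no (k := k) (by linarith) (by linarith)

/-- The system of non-crossing chords, ordered by left and by right end. -/
def chordSys : Sys where
  Y := Chord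
  l1 a b := a.1.1 < b.1.1
  l2 a b := a.1.2 < b.1.2
  R a b := Side a b ∧ Side b a
  irr1 a := lt_irrefl _
  irr2 a := lt_irrefl _
  tr1 a b c := lt_trans
  tr2 a b c := lt_trans
  symm a b h := ⟨h.2, h.1⟩
  tot1 a b h := lt_or_gt_of_ne h.1.ne1
  tot2 a b h := lt_or_gt_of_ne h.1.ne2

/-- A strictly increasing map commuting with integer shifts acts on chords. -/
def act (Φ : ℝ → ℝ) (hm : StrictMono Φ) (hs : ∀ (t : ℝ) (k : ℤ), Φ (t + k) = Φ t + k)
    (a : Chord) : Chord :=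
  ⟨(Φ a.1.1, Φ a.1.2), hm a.2.1, by
    have h1 := hm a.2.2
    have h2 := hs a.1.1 1
    push_cast at h2
    show Φ a.1.2 < Φ a.1.1 + 1
    rw [← h2]; exact h1⟩

theorem InArc.map {Φ : ℝ → ℝ} (hm : StrictMono Φ) (hs : ∀ (t : ℝ) (k : ℤ), Φ (t + k) = Φ t + k)
    {u v t : ℝ} (h : InArc u v t) : InArc (Φ u) (Φ v) (Φ t) := by
  obtain ⟨k, h1, h2⟩ := h
  exact ⟨k, by rw [← hs]; exact hm h1, by rw [← hs]; exact hm h2⟩

theorem Side.map {Φ : ℝ → ℝ} (hm : StrictMono Φ) (hs : ∀ (t : ℝ) (k : ℤ), Φ (t + k) = Φ t + k)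
    {a b : Chord} (h : Side a b) : Side (act Φ hm hs a) (act Φ hm hs b) := by
  have h2 := hs a.1.1 1
  push_cast at h2
  rcases h with ⟨h3, h4⟩ | ⟨h3, h4⟩
  · exact Or.inl ⟨h3.map hm hs, h4.map hm hs⟩
  · right
    have h5 := h3.map hm hs
    have h6 := h4.map hm hs
    rw [h2] at h5 h6
    exact ⟨h5, h6⟩

theorem act_hom {Φ : ℝ → ℝ} (hm : StrictMono Φ) (hs : ∀ (t : ℝ) (k : ℤ), Φ (t + k) = Φ t + k) :
    Hom chordSys chordSys (act Φ hm hs) :=
  ⟨fun _ _ h => ⟨h.1.map hm hs, h.2.map hm hs⟩, fun _ _ h => hm h, fun _ _ h => hm h⟩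

/-- The squeezing map on the unit interval. -/
noncomputable def sq (w o t : ℝ) : ℝ :=
  if t = 0 then 0 else if t < w then o + t / 4 else if t = w then 1 / 2 else 1 / 2 + o + t / 4

theorem exists_squeeze (a : Chord) (o : ℝ) (ho : 0 ≤ o) (ho' : o ≤ 1 / 4) :
    ∃ Φ : ℝ → ℝ, StrictMono Φ ∧ (∀ (t : ℝ) (k : ℤ), Φ (t + k) = Φ t + k) ∧ Φ a.1.1 = 0 ∧
      Φ a.1.2 = 1 / 2 ∧ (∀ t, InArc a.1.1 a.1.2 t → InArc o (o + 1 / 4) (Φ t)) ∧
      (∀ t, InArc a.1.2 (a.1.1 + 1) t → InArc (1 / 2 + o) (1 / 2 + o + 1 / 4) (Φ t)) := by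
  obtain ⟨⟨x, y⟩, hxy, hyx⟩ := a
  dsimp only at hxy hyx ⊢
  set w := y - x with hw
  have hw0 : 0 < w := by linarith
  have hw1 : w < 1 := by linarith
  have hrange : ∀ t, 0 ≤ t → t < 1 → 0 ≤ sq w o t ∧ sq w o t < 1 := by
    intro t h0 h1
    unfold sq
    split_ifs <;> constructor <;> linarith
  have hmono : ∀ s t, 0 ≤ s → s < t → t < 1 → sq w o s < sq w o t := by
    intro s t h0 h1 h2
    unfold sq
    have ht : t ≠ 0 := by linarith [ne_of_gt (show 0 < t by linarith)] <;> exact ne_of_gt (by linarith)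
    rw [if_neg ht]
    split_ifs with a1 a2 a3 a4 a5 a6 a7 a8 a9 a10 <;>
      first
        | linarith
        | (exfalso; linarith)
        | (have := lt_of_le_of_ne (not_lt.1 ‹¬ s < w›) (Ne.symm ‹¬ s = w›); linarith)
  refine ⟨fun t => (⌊t - x⌋ : ℝ) + sq w o (Int.fract (t - x)), ?_, ?_, ?_, ?_, ?_, ?_⟩
  · intro s t hst
    have h1 : ⌊s - x⌋ ≤ ⌊t - x⌋ := Int.floor_mono (by linarith)
    have r1 := hrange _ (Int.fract_nonneg (s - x)) (Int.fract_lt_one _)
    have r2 := hrange _ (Int.fract_nonneg (t - x)) (Int.fract_lt_one _)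
    rcases h1.lt_or_eq with h | h
    · have : (⌊s - x⌋ : ℝ) + 1 ≤ ⌊t - x⌋ := by exact_mod_cast h
      dsimp only
      linarith
    · have e1 := Int.floor_add_fract (s - x)
      have e2 := Int.floor_add_fract (t - x)
      have : Int.fract (s - x) < Int.fract (t - x) := by rw [h] at e1; linarith
      have := hmono _ _ (Int.fract_nonneg (s - x)) this (Int.fract_lt_one _)
      dsimp only
      rw [h]
      linarith
  · intro t k
    have : t + k - x = (t - x) + k := by ring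
    simp only [this, Int.floor_add_intCast, Int.fract_add_intCast]
    push_cast
    ring
  · simp [sq]
  · have h1 : ⌊y - x⌋ = 0 := Int.floor_eq_zero_iff.2 ⟨hw0.le, hw1⟩
    have h2 : Int.fract (y - x) = w := Int.fract_eq_self.2 ⟨hw0.le, hw1⟩
    simp only [h1, h2, sq, if_neg hw0.ne', lt_irrefl, if_false, if_true]
    simp
  · rintro t ⟨k, h1, h2⟩
    have e : t - x = (t + k - x) + ((-k : ℤ) : ℝ) := by push_cast; ring
    have f0 : 0 < t + k - x := by linarith
    have f1 : t + k - x < w := by linarith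
    have g1 : ⌊t + k - x⌋ = 0 := Int.floor_eq_zero_iff.2 ⟨f0.le, by linarith⟩
    have g2 : Int.fract (t + k - x) = t + k - x := Int.fract_eq_self.2 ⟨f0.le, by linarith⟩
    refine ⟨k, ?_⟩
    simp only [e, Int.floor_add_intCast, Int.fract_add_intCast, g1, g2, sq, if_neg f0.ne',
      if_pos f1]
    push_cast
    constructor <;> linarith
  · rintro t ⟨k, h1, h2⟩
    have e : t - x = (t + k - x) + ((-k : ℤ) : ℝ) := by push_cast; ring
    have f1 : w < t + k - x := by linarith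
    have f0 : 0 < t + k - x := by linarith
    have f2 : t + k - x < 1 := by linarith
    have g1 : ⌊t + k - x⌋ = 0 := Int.floor_eq_zero_iff.2 ⟨f0.le, f2⟩
    have g2 : Int.fract (t + k - x) = t + k - x := Int.fract_eq_self.2 ⟨f0.le, f2⟩
    refine ⟨k, ?_⟩
    simp only [e, Int.floor_add_intCast, Int.fract_add_intCast, g1, g2, sq, if_neg f0.ne',
      if_neg (not_lt.2 f1.le), if_neg f1.ne']
    push_cast
    constructor <;> linarith

/-- Chords whose ends lie in disjoint arcs do not cross. -/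
theorem side_of_sep {a b : Chord} {u v u' v' : ℝ} (m : ℤ) (huv : v - u < 1)
    (h1 : v ≤ u' + m) (h2 : v' + m ≤ u + 1)
    (a1 : InArc u v a.1.1) (a2 : InArc u v a.1.2) (b1 : InArc u' v' b.1.1)
    (b2 : InArc u' v' b.1.2) : Side a b := by
  obtain ⟨k1, p1, q1⟩ := a1
  obtain ⟨k2, p2, q2⟩ := a2
  obtain ⟨l1, r1, s1⟩ := b1
  obtain ⟨l2, r2, s2⟩ := b2
  have ha := a.2
  have e1 : k2 ≤ k1 := by
    have : (k2 : ℝ) < k1 + 1 := by linarith
    have : k2 < k1 + 1 := by exact_mod_cast this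
    omega
  have e2 : k1 ≤ k2 + 1 := by
    have : (k1 : ℝ) < k2 + 2 := by linarith
    have : k1 < k2 + 2 := by exact_mod_cast this
    omega
  by_cases hk : k1 = k2
  · right
    subst hk
    exact ⟨⟨l1 + m - k1, by push_cast; linarith, by push_cast; linarith⟩,
      ⟨l2 + m - k1, by push_cast; linarith, by push_cast; linarith⟩⟩
  · left
    have hk' : (k1 : ℝ) = k2 + 1 := by exact_mod_cast (show k1 = k2 + 1 by omega)
    exact ⟨⟨l1 + m - k1, by push_cast; linarith, by push_cast; linarith⟩,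
      ⟨l2 + m - k1, by push_cast; linarith, by push_cast; linarith⟩⟩

theorem chord_am : Am chordSys := by
  intro a b
  obtain ⟨Φ, hm, hs, f1, f2, f3, f4⟩ := exists_squeeze a 0 le_rfl (by norm_num)
  obtain ⟨Ψ, hm', hs', g1, g2, g3, g4⟩ := exists_squeeze b (1 / 4) (by norm_num) le_rfl
  refine ⟨act Φ hm hs, act Ψ hm' hs', act_hom hm hs, act_hom hm' hs', ?_, ?_⟩
  · apply Subtype.ext
    show (Φ a.1.1, Φ a.1.2) = (Ψ b.1.1, Ψ b.1.2)
    rw [f1, f2, g1, g2]
  · rintro y z ⟨hy, -⟩ ⟨hz, -⟩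
    rcases hy with ⟨y1, y2⟩ | ⟨y1, y2⟩ <;> rcases hz with ⟨z1, z2⟩ | ⟨z1, z2⟩
    · exact ⟨side_of_sep 0 (by norm_num) (by norm_num) (by norm_num) (f3 _ y1) (f3 _ y2)
        (g3 _ z1) (g3 _ z2), side_of_sep 1 (by norm_num) (by norm_num) (by norm_num)
        (g3 _ z1) (g3 _ z2) (f3 _ y1) (f3 _ y2)⟩
    · exact ⟨side_of_sep 0 (by norm_num) (by norm_num) (by norm_num) (f3 _ y1) (f3 _ y2)
        (g4 _ z1) (g4 _ z2), side_of_sep 1 (by norm_num) (by norm_num) (by norm_num)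
        (g4 _ z1) (g4 _ z2) (f3 _ y1) (f3 _ y2)⟩
    · exact ⟨side_of_sep 1 (by norm_num) (by norm_num) (by norm_num) (f4 _ y1) (f4 _ y2)
        (g3 _ z1) (g3 _ z2), side_of_sep 0 (by norm_num) (by norm_num) (by norm_num)
        (g3 _ z1) (g3 _ z2) (f4 _ y1) (f4 _ y2)⟩
    · exact ⟨side_of_sep 0 (by norm_num) (by norm_num) (by norm_num) (f4 _ y1) (f4 _ y2)
        (g4 _ z1) (g4 _ z2), side_of_sep 1 (by norm_num) (by norm_num) (by norm_num)
        (g4 _ z1) (g4 _ z2) (f4 _ y1) (f4 _ y2)⟩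

theorem chord_col : Col chordSys := by
  refine ⟨fun a : Chord => ⌊a.1.1⌋ = ⌊a.1.2⌋, fun f hf => ⟨fun h => ?_, fun h => ?_⟩⟩
  · have p01 : (f (0 : Fin 4)).1.1 < (f (1 : Fin 4)).1.1 := hf.o1 _ _ (by decide)
    have p12 : (f (1 : Fin 4)).1.1 < (f (2 : Fin 4)).1.1 := hf.o1 _ _ (by decide)
    have q20 : (f (2 : Fin 4)).1.2 < (f (0 : Fin 4)).1.2 := hf.o2 _ _ (by decide)
    have q01 : (f (0 : Fin 4)).1.2 < (f (1 : Fin 4)).1.2 := hf.o2 _ _ (by decide)
    have c2 := (f (2 : Fin 4)).2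
    have r := (hf.r (0 : Fin 4) (1 : Fin 4) (by decide)).1.nocross p01 (by linarith) q01
    have h0 : ⌊(f (0 : Fin 4)).1.1⌋ = ⌊(f (0 : Fin 4)).1.2⌋ := h _
    have h1 : ⌊(f (1 : Fin 4)).1.1⌋ = ⌊(f (1 : Fin 4)).1.2⌋ := h _
    have m1 : ⌊(f (1 : Fin 4)).1.1⌋ ≤ ⌊(f (0 : Fin 4)).1.2⌋ := Int.floor_mono (by linarith)
    have m2 : ⌊(f (0 : Fin 4)).1.1 + 1⌋ ≤ ⌊(f (1 : Fin 4)).1.2⌋ := Int.floor_mono r.le
    rw [Int.floor_add_one] at m2
    omega
  · have p12 : (f (1 : Fin 4)).1.1 < (f (2 : Fin 4)).1.1 := hf.o1 _ _ (by decide)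
    have p23 : (f (2 : Fin 4)).1.1 < (f (3 : Fin 4)).1.1 := hf.o1 _ _ (by decide)
    have q23 : (f (2 : Fin 4)).1.2 < (f (3 : Fin 4)).1.2 := hf.o2 _ _ (by decide)
    have q31 : (f (3 : Fin 4)).1.2 < (f (1 : Fin 4)).1.2 := hf.o2 _ _ (by decide)
    have c1 := (f (1 : Fin 4)).2
    have c2 := (f (2 : Fin 4)).2
    have c3 := (f (3 : Fin 4)).2
    have h2 : ¬ ⌊(f (2 : Fin 4)).1.1⌋ = ⌊(f (2 : Fin 4)).1.2⌋ := h _
    have h3 : ¬ ⌊(f (3 : Fin 4)).1.1⌋ = ⌊(f (3 : Fin 4)).1.2⌋ := h _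
    have m2 : ⌊(f (2 : Fin 4)).1.1⌋ ≤ ⌊(f (2 : Fin 4)).1.2⌋ := Int.floor_mono c2.1.le
    have m3 : ⌊(f (3 : Fin 4)).1.1⌋ ≤ ⌊(f (3 : Fin 4)).1.2⌋ := Int.floor_mono c3.1.le
    have m4 : ⌊(f (3 : Fin 4)).1.2⌋ ≤ ⌊(f (2 : Fin 4)).1.1 + 1⌋ := Int.floor_mono (by linarith)
    rw [Int.floor_add_one] at m4
    have hlt : (f (3 : Fin 4)).1.1 < (f (2 : Fin 4)).1.2 := by
      by_contra hc
      have := Int.floor_mono (not_lt.1 hc)
      omega
    have r := (hf.r (2 : Fin 4) (3 : Fin 4) (by decide)).1.nocross p23 hlt q23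
    linarith

end Pool.Agent.MP_80b08f_co

end MrgPart1

-- ======== part 2: formerly Pool.Agent.MP_80b08f_co.Wreath
section MrgPart2

set_option autoImplicit false
set_option linter.unusedVariables false

namespace Pool.Agent.MP_80b08f_co

/-- Copies of `S` arranged increasingly (`s = 1`) or decreasingly (`s = -1`). -/
def wr (s : ℤˣ) (S : Sys) : Sys where
  Y := ℤ × S.Y
  l1 a b := a.1 < b.1 ∨ (a.1 = b.1 ∧ S.l1 a.2 b.2)
  l2 a b := s * a.1 < s * b.1 ∨ (a.1 = b.1 ∧ S.l2 a.2 b.2)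
  R a b := a.1 ≠ b.1 ∨ (a.1 = b.1 ∧ S.R a.2 b.2)
  irr1 a h := by
    rcases h with h | h
    · exact lt_irrefl _ h
    · exact S.irr1 _ h.2
  irr2 a h := by
    rcases h with h | h
    · exact lt_irrefl _ h
    · exact S.irr2 _ h.2
  tr1 a b c h1 h2 := by
    rcases h1 with h1 | h1 <;> rcases h2 with h2 | h2
    · exact Or.inl (lt_trans h1 h2)
    · exact Or.inl (h2.1 ▸ h1)
    · exact Or.inl (h1.1 ▸ h2)
    · exact Or.inr ⟨h1.1.trans h2.1, S.tr1 _ _ _ h1.2 h2.2⟩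
  tr2 a b c h1 h2 := by
    rcases h1 with h1 | h1 <;> rcases h2 with h2 | h2
    · exact Or.inl (lt_trans h1 h2)
    · exact Or.inl (h2.1 ▸ h1)
    · exact Or.inl (h1.1 ▸ h2)
    · exact Or.inr ⟨h1.1.trans h2.1, S.tr2 _ _ _ h1.2 h2.2⟩
  symm a b h := by
    rcases h with h | h
    · exact Or.inl h.symm
    · exact Or.inr ⟨h.1.symm, S.symm _ _ h.2⟩
  tot1 a b h := by
    rcases h with h | h
    · rcases lt_or_gt_of_ne h with h | h
      · exact Or.inl (Or.inl h)
      · exact Or.inr (Or.inl h)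
    · rcases S.tot1 _ _ h.2 with h' | h'
      · exact Or.inl (Or.inr ⟨h.1, h'⟩)
      · exact Or.inr (Or.inr ⟨h.1.symm, h'⟩)
  tot2 a b h := by
    rcases h with h | h
    · have : (s : ℤ) * a.1 ≠ s * b.1 := fun he => h (mul_left_cancel₀ s.ne_zero he)
      rcases lt_or_gt_of_ne this with h | h
      · exact Or.inl (Or.inl h)
      · exact Or.inr (Or.inl h)
    · rcases S.tot2 _ _ h.2 with h' | h'
      · exact Or.inl (Or.inr ⟨h.1, h'⟩)
      · exact Or.inr (Or.inr ⟨h.1.symm, h'⟩)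

variable {S : Sys} {s : ℤˣ}

theorem hom_in (s : ℤˣ) (S : Sys) (r : ℤ) : Hom S (wr s S) (fun y => (r, y)) :=
  ⟨fun _ _ h => Or.inr ⟨rfl, h⟩, fun _ _ h => Or.inr ⟨rfl, h⟩, fun _ _ h => Or.inr ⟨rfl, h⟩⟩

theorem age_sub (s : ℤˣ) (S : Sys) : Age S ⊆ Age (wr s S) := by
  rintro π ⟨f, hf⟩
  exact ⟨_, hf.map (hom_in s S 0)⟩

theorem hom_wr {φ : ℤ → ℤ} (hφ : StrictMono φ) {e : S.Y → S.Y} (he : Hom S S e) :
    Hom (wr s S) (wr s S) (fun a => (φ a.1, e a.2)) := by
  refine ⟨fun a b h => ?_, fun a b h => ?_, fun a b h => ?_⟩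
  · rcases h with h | h
    · exact Or.inl (fun h' => h (hφ.injective h'))
    · exact Or.inr ⟨congrArg φ h.1, he.r _ _ h.2⟩
  · rcases h with h | h
    · exact Or.inl (hφ h)
    · exact Or.inr ⟨congrArg φ h.1, he.o1 _ _ h.2⟩
  · rcases h with h | h
    · left
      rcases Int.units_eq_one_or s with rfl | rfl
      · have : a.1 < b.1 := by simpa using h
        simpa using hφ this
      · have : b.1 < a.1 := by simpa using h
        simpa using hφ this
    · exact Or.inr ⟨congrArg φ h.1, he.o2 _ _ h.2⟩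

theorem wr_am (hS : Am S) : Am (wr s S) := by
  rintro ⟨q, a⟩ ⟨q', b⟩
  obtain ⟨e1, e2, h1, h2, he, hx⟩ := hS a b
  have m1 : StrictMono (fun r : ℤ => 2 * (r - q)) := fun x y h => by dsimp only; omega
  have m2 : StrictMono (fun r : ℤ => if r < q' then 2 * (r - q') + 1 else
      if r = q' then 0 else 2 * (r - q') - 1) := fun x y h => by
    dsimp only
    split_ifs <;> omega
  refine ⟨_, _, hom_wr m1 h1, hom_wr m2 h2, ?_, ?_⟩
  · simp [he]
  · rintro ⟨r, y⟩ ⟨r', z⟩ hy hz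
    by_cases hr : r = q ∧ r' = q'
    · right
      obtain ⟨rfl, rfl⟩ := hr
      refine ⟨by simp, hx _ _ ?_ ?_⟩
      · rcases hy with h | h
        · exact absurd rfl h
        · exact h.2
      · rcases hz with h | h
        · exact absurd rfl h
        · exact h.2
    · left
      dsimp only
      split_ifs <;> omega

theorem Rep.proj {π : Pm} {f : Fin π.1 → (wr s S).Y} (hf : Rep (wr s S) π f) (r : ℤ)
    (hr : ∀ i, (f i).1 = r) : Rep S π (fun i => (f i).2) := by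
  refine ⟨fun i j h => ?_, fun i j h => ?_, fun i j h => ?_⟩
  · rcases hf.r i j h with h | h
    · exact absurd ((hr i).trans (hr j).symm) h
    · exact h.2
  · rcases hf.o1 i j h with h | h
    · rw [hr i, hr j] at h; exact absurd h (lt_irrefl _)
    · exact h.2
  · rcases hf.o2 i j h with h | h
    · rw [hr i, hr j] at h; exact absurd h (lt_irrefl _)
    · exact h.2

theorem l1_le {a b : (wr s S).Y} (h : (wr s S).l1 a b) : a.1 ≤ b.1 := by
  rcases h with h | h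
  · exact h.le
  · exact h.1.le

theorem l2_le {a b : (wr s S).Y} (h : (wr s S).l2 a b) : s * a.1 ≤ s * b.1 := by
  rcases h with h | h
  · exact h.le
  · rw [h.1]

theorem wr_col (hS : Col S) : Col (wr s S) := by
  obtain ⟨χ, hχ⟩ := hS
  refine ⟨fun a => χ a.2, fun f hf => hχ _ (hf.proj (f (0 : Fin 4)).1 ?_)⟩
  have p01 := l1_le (hf.o1 (0 : Fin 4) (1 : Fin 4) (by decide))
  have p12 := l1_le (hf.o1 (1 : Fin 4) (2 : Fin 4) (by decide))
  have p23 := l1_le (hf.o1 (2 : Fin 4) (3 : Fin 4) (by decide))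
  have q20 := l2_le (hf.o2 (2 : Fin 4) (0 : Fin 4) (by decide))
  have q03 := l2_le (hf.o2 (0 : Fin 4) (3 : Fin 4) (by decide))
  have q31 := l2_le (hf.o2 (3 : Fin 4) (1 : Fin 4) (by decide))
  have key : (f (1 : Fin 4)).1 = (f (0 : Fin 4)).1 ∧ (f (2 : Fin 4)).1 = (f (0 : Fin 4)).1 ∧
      (f (3 : Fin 4)).1 = (f (0 : Fin 4)).1 := by
    rcases Int.units_eq_one_or s with rfl | rfl
    · simp only [Units.val_one, one_mul] at q20 q03 q31
      omega
    · simp only [Units.val_neg, Units.val_one, neg_mul, one_mul] at q20 q03 q31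
      omega
  intro i
  have hi : ∀ i : Fin 4, i = 0 ∨ i = 1 ∨ i = 2 ∨ i = 3 := by decide
  rcases hi i with rfl | rfl | rfl | rfl
  · rfl
  · exact key.1
  · exact key.2.1
  · exact key.2.2

/-- Doubling a permutation outside the age of `T` in the direction opposite to `t` gives a
permutation outside the age of `wr t T`. -/
theorem double {T : Sys} {π : Pm} (hπ : π ∈ Age S) (hT : π ∉ Age T) (t : ℤˣ) :
    ∃ δ ∈ Age (wr (-t) S), δ ∉ Age (wr t T) := by
  obtain ⟨f, hf⟩ := hπ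
  have h0 := hf.map (hom_in (-t) S 0)
  have h1 := hf.map (hom_in (-t) S 1)
  obtain ⟨δ, u, hu, hr⟩ := exists_rep (wr (-t) S)
    (Set.range ((fun y => ((0 : ℤ), y)) ∘ f) ∪ Set.range ((fun y => ((1 : ℤ), y)) ∘ f))
    ((Set.finite_range _).union (Set.finite_range _)) (by
      rintro a (⟨i, rfl⟩ | ⟨i, rfl⟩) b (⟨j, rfl⟩ | ⟨j, rfl⟩) hne
      · exact h0.r i j (fun h => hne (by rw [h]))
      · exact Or.inl (by simp)
      · exact Or.inl (by simp)
      · exact h1.r i j (fun h => hne (by rw [h])))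
  obtain ⟨f0, e0, g0⟩ := factor hu h0 (by rw [hr]; exact Set.subset_union_left)
  obtain ⟨f1, e1, g1⟩ := factor hu h1 (by rw [hr]; exact Set.subset_union_right)
  refine ⟨δ, ⟨u, hu⟩, ?_⟩
  rintro ⟨h, hh⟩
  apply hT
  by_cases hne : Nonempty (Fin π.1)
  · refine ⟨_, (hh.comp e0).proj (h (f1 hne.some)).1 fun i => ?_⟩
    set j := hne.some
    have a1 : f0 i < f1 j := hu.lt1 (by rw [g0, g1]; exact Or.inl (by simp))
    have b1 := l1_le (hh.o1 _ _ a1)
    show (h (f0 i)).1 = (h (f1 j)).1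
    rcases Int.units_eq_one_or t with rfl | rfl
    · have a2 : δ.2 (f1 j) < δ.2 (f0 i) := hu.lt2 (by rw [g0, g1]; exact Or.inl (by simp))
      have b2 := l2_le (hh.o2 _ _ a2)
      simp only [Units.val_one, one_mul] at b2
      omega
    · have a2 : δ.2 (f0 i) < δ.2 (f1 j) := hu.lt2 (by rw [g0, g1]; exact Or.inl (by simp))
      have b2 := l2_le (hh.o2 _ _ a2)
      simp only [Units.val_neg, Units.val_one, neg_mul, one_mul] at b2
      omega
  · rw [not_nonempty_iff] at hne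
    exact ⟨fun i => hne.elim i, fun i => hne.elim i, fun i => hne.elim i, fun i => hne.elim i⟩

/-- Left ends of four chords. -/
noncomputable def chx : Fin 4 → ℝ := ![0, 1 / 5, 3 / 10, 3 / 5]

/-- Right ends of four chords. -/
noncomputable def chy : Fin 4 → ℝ := ![1 / 2, 11 / 10, 2 / 5, 7 / 10]

/-- Four chords. -/
noncomputable def ch (i : Fin 4) : Chord :=
  ⟨(chx i, chy i), by fin_cases i <;> norm_num [chx, chy]⟩

theorem inArc_of (u v t : ℝ) (h : (u < t ∧ t < v) ∨ (u < t + 1 ∧ t + 1 < v) ∨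
    (u < t - 1 ∧ t - 1 < v)) : InArc u v t := by
  rcases h with h | h | h
  · exact ⟨0, by simpa using h⟩
  · exact ⟨1, by simpa using h⟩
  · exact ⟨-1, by push_cast; constructor <;> linarith [h.1, h.2]⟩

theorem ch_side : ∀ i j : Fin 4, i ≠ j → Side (ch i) (ch j) := by
  intro i j hij
  fin_cases i <;> fin_cases j <;> first
    | exact absurd rfl hij
    | (refine Or.inl ⟨inArc_of _ _ _ ?_, inArc_of _ _ _ ?_⟩ <;> norm_num [ch, chx, chy]; done)
    | (refine Or.inr ⟨inArc_of _ _ _ ?_, inArc_of _ _ _ ?_⟩ <;> norm_num [ch, chx, chy])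

theorem chord_2413 : p2413 ∈ Age chordSys := by
  refine ⟨ch, fun i j h => ⟨ch_side i j h, ch_side j i (Ne.symm h)⟩, ?_, ?_⟩
  · intro (i : Fin 4) (j : Fin 4) h
    show chx i < chx j
    fin_cases i <;> fin_cases j <;> first
      | exact absurd h (by decide)
      | norm_num [ch, chx, chy]
  · intro (i : Fin 4) (j : Fin 4) h
    show chy i < chy j
    fin_cases i <;> fin_cases j <;> first
      | exact absurd h (by decide)
      | norm_num [ch, chx, chy]

/-- The permutation 4231. -/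
def p4231 : Pm := ⟨4, ⟨![3, 1, 2, 0], ![3, 1, 2, 0], by decide, by decide⟩⟩

theorem chord_4231 : p4231 ∉ Age chordSys := by
  rintro ⟨f, hf⟩
  have p01 : (f (0 : Fin 4)).1.1 < (f (1 : Fin 4)).1.1 := hf.o1 _ _ (by decide)
  have p12 : (f (1 : Fin 4)).1.1 < (f (2 : Fin 4)).1.1 := hf.o1 _ _ (by decide)
  have p23 : (f (2 : Fin 4)).1.1 < (f (3 : Fin 4)).1.1 := hf.o1 _ _ (by decide)
  have q31 : (f (3 : Fin 4)).1.2 < (f (1 : Fin 4)).1.2 := hf.o2 _ _ (by decide)
  have q12 : (f (1 : Fin 4)).1.2 < (f (2 : Fin 4)).1.2 := hf.o2 _ _ (by decide)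
  have q20 : (f (2 : Fin 4)).1.2 < (f (0 : Fin 4)).1.2 := hf.o2 _ _ (by decide)
  have c0 := (f (0 : Fin 4)).2
  have c3 := (f (3 : Fin 4)).2
  have r := (hf.r (1 : Fin 4) (2 : Fin 4) (by decide)).1.nocross p12 (by linarith) q12
  linarith

theorem wr_4231 : p4231 ∈ Age (wr (-1) chordSys) := by
  have s23 : chordSys.R (ch 2) (ch 3) := ⟨ch_side _ _ (by decide), ch_side _ _ (by decide)⟩
  have l1 : chordSys.l1 (ch 2) (ch 3) := by
    show chx 2 < chx 3
    simp [chx]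
    norm_num
  have l2 : chordSys.l2 (ch 2) (ch 3) := by
    show chy 2 < chy 3
    simp [chy]
    norm_num
  refine ⟨fun i : Fin 4 => ((![0, 1, 1, 2] : Fin 4 → ℤ) i, ch ((![2, 2, 3, 2] : Fin 4 → Fin 4) i)),
    ?_, ?_, ?_⟩
  · intro i j h
    fin_cases i <;> fin_cases j <;> first
      | exact absurd rfl h
      | exact Or.inr ⟨rfl, s23⟩
      | exact Or.inr ⟨rfl, chordSys.symm _ _ s23⟩
      | exact Or.inl (by decide)
  · intro i j h
    fin_cases i <;> fin_cases j <;> first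
      | exact absurd h (by decide)
      | exact Or.inr ⟨rfl, l1⟩
      | exact Or.inl (by decide)
  · intro i j h
    fin_cases i <;> fin_cases j <;> first
      | exact absurd h (by decide)
      | exact Or.inr ⟨rfl, l2⟩
      | exact Or.inl (by decide)

/-- The tower of systems. -/
def tower : ℕ → Sys
  | 0 => chordSys
  | k + 1 => wr ((-1) ^ (k + 1)) (tower k)

theorem tower_mono : Monotone fun k => Age (tower k) :=
  monotone_nat_of_le_succ fun k => age_sub _ (tower k)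

theorem tower_miss (k : ℕ) : ∃ j, ∃ π ∈ Age (tower j), π ∉ Age (tower k) := by
  induction k with
  | zero => exact ⟨1, p4231, by simpa [tower] using wr_4231, chord_4231⟩
  | succ k ih =>
    obtain ⟨j, π, h1, h2⟩ := ih
    have h3 : π ∈ Age (tower (2 * j + k + 1)) := tower_mono (by omega) h1
    obtain ⟨δ, d1, d2⟩ := double h3 h2 ((-1) ^ (k + 1))
    refine ⟨2 * j + k + 1 + 1, δ, ?_, d2⟩
    have : ((-1 : ℤˣ)) ^ (2 * j + k + 1 + 1) = -((-1) ^ (k + 1)) := by
      rw [show 2 * j + k + 1 + 1 = 2 * j + (k + 1) + 1 by ring, pow_succ, pow_add, pow_mul]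
      simp
    show δ ∈ Age (wr ((-1) ^ (2 * j + k + 1 + 1)) (tower (2 * j + k + 1)))
    rw [this]
    exact d1

theorem tower_am (k : ℕ) : Am (tower k) := by
  induction k with
  | zero => exact chord_am
  | succ k ih => exact wr_am ih

theorem tower_col (k : ℕ) : Col (tower k) := by
  induction k with
  | zero => exact chord_col
  | succ k ih => exact wr_col ih

theorem infinite_classes :
    {C : Set Pm | IsClass C ∧ OneAmalg C ∧ Splittable C}.Infinite := by
  have h1 : (Set.range fun k => Age (tower k)).Infinite := by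
    intro hfin
    obtain ⟨C, ⟨k, rfl⟩, hmax⟩ := hfin.exists_maximal ⟨_, 0, rfl⟩
    obtain ⟨j, π, h1, h2⟩ := tower_miss k
    have h3 : Age (tower k) ≤ Age (tower (max j k)) := tower_mono (le_max_right _ _)
    exact h2 (hmax ⟨max j k, rfl⟩ h3 (tower_mono (le_max_left _ _) h1))
  refine h1.mono ?_
  rintro _ ⟨k, rfl⟩
  exact ⟨age_isClass _, oneAmalg_age (tower_am k),
    splits_age (tower_col k) (tower_mono (Nat.zero_le k) chord_2413)⟩

end Pool.Agent.MP_80b08f_co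

end MrgPart2

-- marker of a merged file
example : 731051 + 110143 = 731051 + 110143 := rfl
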